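import Pool.Agent.U115.WM.Stm

/-!
# Project WM, package ZB (helper95): a matrix with a big block of zeros has determinant zero
-/

set_option autoImplicit false

namespace Pool.Agent.U95.WM

open Pool.Agent.U115.WM

/-- a block of zeros with more than `k` rows and columns -/
theorem det_zero {k : ℕ} (Q : Matrix (Fin k) (Fin k) ℤ) (A B : Finset (Fin k))
    (hAB : k < A.card + B.card) (h : ∀ p ∈ A, ∀ q ∈ B, Q p q = 0) : Q.det = 0 := by
  classical
  rw [Matrix.det_apply]
  refine Finset.sum_eq_zero fun σ _ => ?_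
  obtain ⟨q, hq, hσ⟩ : ∃ q ∈ B, σ q ∈ A := by
    by_contra hc
    push Not at hc
    have h1 : B.image σ ⊆ Aᶜ := by
      intro p hp
      obtain ⟨q, hq, rfl⟩ := Finset.mem_image.1 hp
      exact Finset.mem_compl.2 (hc q hq)
    have h2 := Finset.card_le_card h1
    rw [Finset.card_image_of_injective _ σ.injective, Finset.card_compl, Fintype.card_fin] at h2
    have h3 : A.card ≤ k := by
      have := Finset.card_le_univ A
      rwa [Fintype.card_fin] at this
    omega
  have h0 : ∏ i, Q (σ i) i = 0 := Finset.prod_eq_zero (Finset.mem_univ q) (h _ hσ _ hq)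
  rw [h0, smul_zero]

theorem int_zero {z : ℤ} (h : |(z : ℝ)| < 1) : z = 0 := by
  have h1 : |z| < 1 := by exact_mod_cast h
  exact Int.abs_lt_one_iff.1 h1

theorem t_ZB : S_ZB := by
  intro k Q e M he hdet
  refine ⟨fun h i => ?_, fun hM h i => ?_⟩
  · by_contra hc
    push Not at hc
    apply hdet
    refine det_zero Q (Finset.Ici i) (Finset.Ici i.rev) ?_ fun p hp q hq => ?_
    · rw [Fin.card_Ici, Fin.card_Ici, Fin.val_rev]
      have := i.isLt
      omega
    · have h1 : e i + e i.rev ≤ e p + e q :=
        Nat.add_le_add (he (Finset.mem_Ici.1 hp)) (he (Finset.mem_Ici.1 hq))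
      have h2 : (2 : ℝ) ^ (e i + e i.rev) ≤ 2 ^ (e p + e q) :=
        pow_le_pow_right₀ (by norm_num) h1
      have h3 : (0 : ℝ) < 2 ^ (e p + e q) := by positivity
      apply int_zero
      by_contra h4
      push Not at h4
      have h5 := h p q
      nlinarith
  · by_contra hc
    push Not at hc
    apply hdet
    refine det_zero Q (Finset.Iic i) (Finset.Iic i.rev) ?_ fun p hp q hq => ?_
    · rw [Fin.card_Iic, Fin.card_Iic, Fin.val_rev]
      have := i.isLt
      omega
    · have h1 : e p + e q ≤ e i + e i.rev :=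
        Nat.add_le_add (he (Finset.mem_Iic.1 hp)) (he (Finset.mem_Iic.1 hq))
      have h2 : (2 : ℝ) ^ (e p + e q) ≤ 2 ^ (e i + e i.rev) :=
        pow_le_pow_right₀ (by norm_num) h1
      apply int_zero
      refine lt_of_le_of_lt (h p q) (lt_of_le_of_lt ?_ hc)
      exact mul_le_mul_of_nonneg_left h2 hM.le

end Pool.Agent.U95.WM
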